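import Mathlib

namespace Pool.Agent.Results.MP_1bbe3d_pr.NoMLE

open Finset

noncomputable section

/-- The transformed time `u(s) = τ + β (s - τ)`. -/
def u (τ β s : ℝ) : ℝ := τ + β * (s - τ)

/-- `Q(α, β)`, the failure times being `t 0, …, t (n₁ + n₂ - 1)`. -/
def Q (n n₁ n₂ : ℕ) (τ η : ℝ) (t : ℕ → ℝ) (α β : ℝ) : ℝ :=
  ∑ i ∈ range n₁, t i ^ α + ∑ i ∈ Ico n₁ (n₁ + n₂), u τ β (t i) ^ α +
    ((n : ℝ) - ((n₁ + n₂ : ℕ) : ℝ)) * u τ β η ^ α

/-- The log-likelihood `l(α, θ, β)`. -/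
def logLik (n n₁ n₂ : ℕ) (τ η : ℝ) (t : ℕ → ℝ) (α θ β : ℝ) : ℝ :=
  ((n₁ + n₂ : ℕ) : ℝ) * Real.log α + n₂ * Real.log β - ((n₁ + n₂ : ℕ) : ℝ) * α * Real.log θ +
    (α - 1) * (∑ i ∈ range n₁, Real.log (t i) + ∑ i ∈ Ico n₁ (n₁ + n₂), Real.log (u τ β (t i))) -
    θ ^ (-α) * Q n n₁ n₂ τ η t α β

/-- Admissible data: `0 < τ < η`, `n₁ + n₂ ≤ n`, increasing failure times, the first `n₁` in
`(0, τ]` and the other `n₂` in `(τ, η]`. -/
structure IsData (n n₁ n₂ : ℕ) (τ η : ℝ) (t : ℕ → ℝ) : Prop where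
  tau_pos : 0 < τ
  tau_lt : τ < η
  le_n : n₁ + n₂ ≤ n
  incr : ∀ i j, i < j → j < n₁ + n₂ → t i < t j
  first : ∀ i, i < n₁ → 0 < t i ∧ t i ≤ τ
  second : ∀ i, n₁ ≤ i → i < n₁ + n₂ → τ < t i ∧ t i ≤ η

/-- Maximum likelihood estimates exist: `l` attains its supremum over `(0, ∞)³`. -/
def MLEExists (n n₁ n₂ : ℕ) (τ η : ℝ) (t : ℕ → ℝ) : Prop :=
  ∃ α θ β : ℝ, 0 < α ∧ 0 < θ ∧ 0 < β ∧ ∀ α' θ' β' : ℝ, 0 < α' → 0 < θ' → 0 < β' →
    logLik n n₁ n₂ τ η t α' θ' β' ≤ logLik n n₁ n₂ τ η t α θ β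

lemma u_pos {τ β s : ℝ} (hτ : 0 < τ) (hβ : 0 < β) (hs : τ ≤ s) : 0 < u τ β s := by
  unfold u
  have : 0 ≤ β * (s - τ) := mul_nonneg hβ.le (by linarith)
  linarith

/-- With `n₁ = 0`, no maximiser has `α < 1`: doubling `β` (and `θ`) increases `l`. -/
lemma step {n m : ℕ} {τ η : ℝ} {t : ℕ → ℝ} (hd : IsData n 0 m τ η t) (hm : 1 ≤ m)
    {α θ β : ℝ} (hα : 0 < α) (hα1 : α < 1) (hθ : 0 < θ) (hβ : 0 < β) :
    logLik n 0 m τ η t α θ β < logLik n 0 m τ η t α (2 * θ) (2 * β) := by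
  have hτ := hd.tau_pos
  have hmem : ∀ i ∈ Ico 0 (0 + m), τ < t i ∧ t i ≤ η := fun i hi => by
    rw [Finset.mem_Ico] at hi
    exact hd.second i hi.1 hi.2
  have hup : ∀ s, τ ≤ s → 0 < u τ β s := fun s hs => u_pos hτ hβ hs
  have hup2 : ∀ s, τ ≤ s → 0 < u τ (2 * β) s := fun s hs => u_pos hτ (by linarith) hs
  have hlt : ∀ s, u τ (2 * β) s < 2 * u τ β s := fun s => by unfold u; linarith
  have hθa : (2 * θ) ^ (-α) = 2 ^ (-α) * θ ^ (-α) := Real.mul_rpow (by norm_num) hθ.le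
  have hpow : ∀ s, τ ≤ s → 2 ^ (-α) * u τ (2 * β) s ^ α ≤ u τ β s ^ α := by
    intro s hs
    have h1 : u τ (2 * β) s ^ α ≤ (2 * u τ β s) ^ α :=
      Real.rpow_le_rpow (hup2 s hs).le (hlt s).le hα.le
    rw [Real.mul_rpow (by norm_num) (hup s hs).le] at h1
    have h2 : (2 : ℝ) ^ (-α) * 2 ^ α = 1 := by
      rw [← Real.rpow_add (by norm_num)]; simp
    calc 2 ^ (-α) * u τ (2 * β) s ^ α ≤ 2 ^ (-α) * (2 ^ α * u τ β s ^ α) := by gcongr
      _ = (2 ^ (-α) * 2 ^ α) * u τ β s ^ α := by ring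
      _ = u τ β s ^ α := by rw [h2, one_mul]
  have hQ : 2 ^ (-α) * Q n 0 m τ η t α (2 * β) ≤ Q n 0 m τ η t α β := by
    unfold Q
    simp only [range_zero, sum_empty, zero_add]
    rw [mul_add, Finset.mul_sum]
    refine add_le_add (Finset.sum_le_sum fun i hi => hpow _ ?_) ?_
    · have := hmem i (by simpa using hi)
      exact this.1.le
    · have h3 : (0 : ℝ) ≤ (n : ℝ) - (m : ℝ) := by
        have : m ≤ n := by simpa using hd.le_n
        have : (m : ℝ) ≤ n := by exact_mod_cast this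
        linarith
      have h4 := hpow η hd.tau_lt.le
      calc 2 ^ (-α) * (((n : ℝ) - (m : ℝ)) * u τ (2 * β) η ^ α)
          = ((n : ℝ) - (m : ℝ)) * (2 ^ (-α) * u τ (2 * β) η ^ α) := by ring
        _ ≤ _ := mul_le_mul_of_nonneg_left h4 h3
  have hlog : ∑ i ∈ Ico 0 (0 + m), Real.log (u τ (2 * β) (t i)) <
      m * Real.log 2 + ∑ i ∈ Ico 0 (0 + m), Real.log (u τ β (t i)) := by
    have h1 : (m : ℝ) * Real.log 2 = ∑ _i ∈ Ico 0 (0 + m), Real.log 2 := by simp
    rw [h1, ← Finset.sum_add_distrib]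
    refine Finset.sum_lt_sum_of_nonempty ?_ fun i hi => ?_
    · exact ⟨0, by simp; omega⟩
    · have h2 := hmem i hi
      rw [← Real.log_mul (by norm_num) (hup _ h2.1.le).ne']
      exact Real.log_lt_log (hup2 _ h2.1.le) (hlt _)
  have hlog2 : Real.log (2 * β) = Real.log 2 + Real.log β :=
    Real.log_mul (by norm_num) hβ.ne'
  have hlog3 : Real.log (2 * θ) = Real.log 2 + Real.log θ :=
    Real.log_mul (by norm_num) hθ.ne'
  have hθpos : 0 < θ ^ (-α) := Real.rpow_pos_of_pos hθ _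
  unfold logLik
  simp only [range_zero, sum_empty, zero_add] at hlog ⊢
  rw [hlog2, hlog3, hθa]
  have h5 : 2 ^ (-α) * θ ^ (-α) * Q n 0 m τ η t α (2 * β) ≤ θ ^ (-α) * Q n 0 m τ η t α β := by
    calc 2 ^ (-α) * θ ^ (-α) * Q n 0 m τ η t α (2 * β)
        = θ ^ (-α) * (2 ^ (-α) * Q n 0 m τ η t α (2 * β)) := by ring
      _ ≤ _ := mul_le_mul_of_nonneg_left hQ hθpos.le
  nlinarith

lemma mul_log_sub_le {m w : ℝ} (hm : 0 < m) (hw : 0 < w) :
    m * Real.log w - w ≤ m * Real.log m - m := by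
  have h := Real.log_le_sub_one_of_pos (div_pos hw hm)
  rw [Real.log_div hw.ne' hm.ne'] at h
  have h2 : m * (Real.log w - Real.log m) ≤ m * (w / m - 1) := mul_le_mul_of_nonneg_left h hm.le
  have h3 : m * (w / m - 1) = w - m := by field_simp
  rw [h3] at h2
  linarith

/-- Upper bound for `α ≥ 1`, uniform in the first failure time. -/
lemma upper {n m : ℕ} {τ η : ℝ} {t : ℕ → ℝ} (hd : IsData n 0 m τ η t) (hm : 3 ≤ m)
    {α θ β : ℝ} (hα : 1 ≤ α) (hθ : 0 < θ) (hβ : 0 < β) :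
    logLik n 0 m τ η t α θ β ≤
      2 * (m * Real.log m - m) + 1 - m * Real.log (t (m - 1) - t 1) := by
  have hτ := hd.tau_pos
  have hmem : ∀ i ∈ Ico 0 (0 + m), τ < t i ∧ t i ≤ η := fun i hi => by
    rw [Finset.mem_Ico] at hi
    exact hd.second i hi.1 hi.2
  have hup : ∀ s, τ ≤ s → 0 < u τ β s := fun s hs => u_pos hτ hβ hs
  have hα0 : 0 < α := by linarith
  have hmR : (0 : ℝ) < m := by
    have : 0 < m := by omega
    exact_mod_cast this
  set U := u τ β (t (m - 1)) with hU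
  set D := t (m - 1) - t 1 with hD
  have h1m : t 1 < t (m - 1) := hd.incr 1 (m - 1) (by omega) (by omega)
  have hDpos : 0 < D := by rw [hD]; linarith
  have hlast := hd.second (m - 1) (by omega) (by omega)
  have h1 := hd.second 1 (by omega) (by omega)
  have hUpos : 0 < U := hup _ hlast.1.le
  -- `Q` is at least its last failure term
  have hnm : (0 : ℝ) ≤ (n : ℝ) - (m : ℝ) := by
    have : m ≤ n := by simpa using hd.le_n
    have : (m : ℝ) ≤ n := by exact_mod_cast this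
    linarith
  have hQ : U ^ α ≤ Q n 0 m τ η t α β := by
    unfold Q
    simp only [range_zero, sum_empty, zero_add]
    have h2 : U ^ α ≤ ∑ i ∈ Ico 0 m, u τ β (t i) ^ α := by
      refine Finset.single_le_sum (f := fun i => u τ β (t i) ^ α) (fun i hi => ?_)
        (Finset.mem_Ico.2 ⟨Nat.zero_le _, by omega⟩)
      exact (Real.rpow_pos_of_pos (hup _ (hmem i (by simpa using hi)).1.le) _).le
    have h3 : 0 ≤ ((n : ℝ) - (m : ℝ)) * u τ β η ^ α :=
      mul_nonneg hnm (Real.rpow_pos_of_pos (hup _ hd.tau_lt.le) _).le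
    linarith
  set w := θ ^ (-α) * U ^ α with hw
  have hθpos : 0 < θ ^ (-α) := Real.rpow_pos_of_pos hθ _
  have hwpos : 0 < w := mul_pos hθpos (Real.rpow_pos_of_pos hUpos _)
  have hlogw : Real.log w = -α * Real.log θ + α * Real.log U := by
    rw [hw, Real.log_mul hθpos.ne' (Real.rpow_pos_of_pos hUpos _).ne', Real.log_rpow hθ,
      Real.log_rpow hUpos]
  have hwQ : w ≤ θ ^ (-α) * Q n 0 m τ η t α β := mul_le_mul_of_nonneg_left hQ hθpos.le
  have hA := mul_log_sub_le hmR hwpos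
  -- the sum of logarithms
  set v := β * D / U with hv
  have hvpos : 0 < v := div_pos (mul_pos hβ hDpos) hUpos
  have hv1 : v ≤ 1 := by
    rw [hv, div_le_one hUpos, hU, hD]
    unfold u
    nlinarith
  have hS : ∑ i ∈ Ico 0 (0 + m), Real.log (u τ β (t i)) ≤ m * Real.log U - v := by
    have h2 : ∑ i ∈ Ico 0 (0 + m), (Real.log (u τ β (t i)) - Real.log U) ≤ - v := by
      have h3 : ∀ i ∈ Ico 0 (0 + m), Real.log (u τ β (t i)) - Real.log U ≤ 0 := by
        intro i hi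
        have h4 := hmem i hi
        have h5 : t i ≤ t (m - 1) := by
          rw [Finset.mem_Ico] at hi
          rcases Nat.eq_or_lt_of_le (show i ≤ m - 1 by omega) with h | h
          · rw [h]
          · exact (hd.incr i (m - 1) h (by omega)).le
        have h6 : u τ β (t i) ≤ U := by
          rw [hU]; unfold u
          nlinarith
        have := Real.log_le_log (hup _ h4.1.le) h6
        linarith
      have h7 : ∑ i ∈ Ico 0 (0 + m), (Real.log (u τ β (t i)) - Real.log U) ≤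
          Real.log (u τ β (t 1)) - Real.log U := by
        have h8 : (1 : ℕ) ∈ Ico 0 (0 + m) := Finset.mem_Ico.2 ⟨Nat.zero_le _, by omega⟩
        rw [← Finset.add_sum_erase _ _ h8]
        have : ∑ i ∈ (Ico 0 (0 + m)).erase 1, (Real.log (u τ β (t i)) - Real.log U) ≤ 0 :=
          Finset.sum_nonpos fun i hi => h3 i (Finset.mem_of_mem_erase hi)
        linarith
      have h9 : Real.log (u τ β (t 1)) - Real.log U ≤ -v := by
        rw [← Real.log_div (hup _ h1.1.le).ne' hUpos.ne']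
        have h10 := Real.log_le_sub_one_of_pos (div_pos (hup _ h1.1.le) hUpos)
        have h11 : u τ β (t 1) / U - 1 = -v := by
          rw [hv, hD, hU]
          have : u τ β (t (m - 1)) ≠ 0 := hUpos.ne'
          field_simp
          unfold u
          ring
        linarith
      linarith
    rw [Finset.sum_sub_distrib] at h2
    simp only [sum_const, Nat.card_Ico, zero_add, nsmul_eq_mul] at h2 ⊢
    simp only [Nat.sub_zero] at h2
    linarith
  have hzpos : 0 < α * v := mul_pos hα0 hvpos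
  have hB := mul_log_sub_le hmR hzpos
  have hlogz : Real.log (α * v) = Real.log α + Real.log β + Real.log D - Real.log U := by
    rw [Real.log_mul hα0.ne' hvpos.ne', hv, Real.log_div (mul_pos hβ hDpos).ne' hUpos.ne',
      Real.log_mul hβ.ne' hDpos.ne']
    ring
  unfold logLik
  simp only [range_zero, sum_empty, zero_add] at hS ⊢
  have h12 : (α - 1) * ∑ i ∈ Ico 0 m, Real.log (u τ β (t i)) ≤
      (α - 1) * (m * Real.log U - v) := mul_le_mul_of_nonneg_left hS (by linarith)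
  rw [hlogz] at hB
  rw [hlogw] at hA
  nlinarith

/-- Lower bound at `α = 1/2`, `θ = β = τ / (t 0 - τ)`. -/
lemma lower {n m : ℕ} {τ η : ℝ} {t : ℕ → ℝ} (hd : IsData n 0 m τ η t) (hm : 1 ≤ m) :
    -(m * Real.log 2) - Real.log (2 * (t 0 - τ)) / 2 -
        ((m : ℝ) - 1) * Real.log (2 * (η - τ)) / 2 - n * (2 * (η - τ)) ^ (1 / 2 : ℝ) ≤
      logLik n 0 m τ η t (1 / 2) (τ / (t 0 - τ)) (τ / (t 0 - τ)) := by
  have hτ := hd.tau_pos
  have hmem : ∀ i ∈ Ico 0 (0 + m), τ < t i ∧ t i ≤ η := fun i hi => by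
    rw [Finset.mem_Ico] at hi
    exact hd.second i hi.1 hi.2
  have h0 := hd.second 0 (by omega) (by omega)
  set x := t 0 - τ with hx
  have hxpos : 0 < x := by rw [hx]; linarith
  set β := τ / x with hβ
  have hβpos : 0 < β := div_pos hτ hxpos
  have hβx : β * x = τ := by rw [hβ]; field_simp
  have hu : ∀ s, u τ β s = β * ((s - τ) + x) := fun s => by
    unfold u
    linear_combination (-1 : ℝ) * hβx
  have hypos : ∀ s, τ ≤ s → 0 < (s - τ) + x := fun s hs => by linarith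
  have hyle : ∀ s, s ≤ η → (s - τ) + x ≤ 2 * (η - τ) := fun s hs => by
    have : x ≤ η - τ := by rw [hx]; linarith [h0.2]
    linarith
  have hX : 0 < 2 * (η - τ) := by linarith [hd.tau_lt]
  have hβpow : β ^ (-(1 / 2) : ℝ) * β ^ (1 / 2 : ℝ) = 1 := by
    rw [← Real.rpow_add hβpos]; norm_num
  have hterm : ∀ s, τ ≤ s → s ≤ η →
      β ^ (-(1 / 2) : ℝ) * u τ β s ^ (1 / 2 : ℝ) ≤ (2 * (η - τ)) ^ (1 / 2 : ℝ) := by
    intro s hs hs2
    rw [hu s, Real.mul_rpow hβpos.le (hypos s hs).le, ← mul_assoc, hβpow, one_mul]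
    exact Real.rpow_le_rpow (hypos s hs).le (hyle s hs2) (by norm_num)
  have hnm : (0 : ℝ) ≤ (n : ℝ) - (m : ℝ) := by
    have : m ≤ n := by simpa using hd.le_n
    have : (m : ℝ) ≤ n := by exact_mod_cast this
    linarith
  have hQ : β ^ (-(1 / 2) : ℝ) * Q n 0 m τ η t (1 / 2) β ≤ n * (2 * (η - τ)) ^ (1 / 2 : ℝ) := by
    unfold Q
    simp only [range_zero, sum_empty, zero_add]
    rw [mul_add, Finset.mul_sum]
    have h1 : ∑ i ∈ Ico 0 m, β ^ (-(1 / 2) : ℝ) * u τ β (t i) ^ (1 / 2 : ℝ) ≤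
        ∑ _i ∈ Ico 0 m, (2 * (η - τ)) ^ (1 / 2 : ℝ) := by
      refine Finset.sum_le_sum fun i hi => ?_
      have := hmem i (by simpa using hi)
      exact hterm _ this.1.le this.2
    have h2 : ((n : ℝ) - (m : ℝ)) * (β ^ (-(1 / 2) : ℝ) * u τ β η ^ (1 / 2 : ℝ)) ≤
        ((n : ℝ) - (m : ℝ)) * (2 * (η - τ)) ^ (1 / 2 : ℝ) :=
      mul_le_mul_of_nonneg_left (hterm η hd.tau_lt.le le_rfl) hnm
    simp only [sum_const, Nat.card_Ico, Nat.sub_zero, nsmul_eq_mul] at h1
    calc ∑ i ∈ Ico 0 m, β ^ (-(1 / 2) : ℝ) * u τ β (t i) ^ (1 / 2 : ℝ) +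
          β ^ (-(1 / 2) : ℝ) * (((n : ℝ) - (m : ℝ)) * u τ β η ^ (1 / 2 : ℝ))
        = ∑ i ∈ Ico 0 m, β ^ (-(1 / 2) : ℝ) * u τ β (t i) ^ (1 / 2 : ℝ) +
          ((n : ℝ) - (m : ℝ)) * (β ^ (-(1 / 2) : ℝ) * u τ β η ^ (1 / 2 : ℝ)) := by ring
      _ ≤ m * (2 * (η - τ)) ^ (1 / 2 : ℝ) + ((n : ℝ) - (m : ℝ)) * (2 * (η - τ)) ^ (1 / 2 : ℝ) :=
          add_le_add h1 h2
      _ = n * (2 * (η - τ)) ^ (1 / 2 : ℝ) := by ring
  have hS : ∑ i ∈ Ico 0 m, Real.log (u τ β (t i)) ≤
      m * Real.log β + Real.log (2 * x) + ((m : ℝ) - 1) * Real.log (2 * (η - τ)) := by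
    obtain ⟨k, rfl⟩ : ∃ k, m = k + 1 := ⟨m - 1, by omega⟩
    rw [← Finset.range_eq_Ico, Finset.sum_range_succ']
    have h1 : ∀ i ∈ range k, Real.log (u τ β (t (i + 1))) ≤
        Real.log β + Real.log (2 * (η - τ)) := by
      intro i hi
      have h2 := hmem (i + 1) (by
        rw [Finset.mem_range] at hi
        rw [Finset.mem_Ico]; omega)
      rw [hu, Real.log_mul hβpos.ne' (hypos _ h2.1.le).ne']
      have := Real.log_le_log (hypos _ h2.1.le) (hyle _ h2.2)
      linarith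
    have h3 := Finset.sum_le_sum h1
    have h4 : Real.log (u τ β (t 0)) = Real.log β + Real.log (2 * x) := by
      rw [hu, ← hx, Real.log_mul hβpos.ne' (by linarith)]
      congr 2
      ring
    rw [h4]
    simp only [sum_const, card_range, nsmul_eq_mul] at h3
    push_cast
    linarith
  unfold logLik
  simp only [range_zero, sum_empty, zero_add]
  have hhalf : Real.log (1 / 2) = - Real.log 2 := by
    rw [one_div, Real.log_inv]
  rw [hhalf]
  nlinarith

/-- **Result.** -/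
theorem result :
    (¬ ∀ (n n₁ n₂ : ℕ) (τ η : ℝ) (t : ℕ → ℝ), IsData n n₁ n₂ τ η t → n₂ ≠ 0 → 3 ≤ n₁ + n₂ →
      MLEExists n n₁ n₂ τ η t) ∧
    ∀ (n m : ℕ) (τ η : ℝ) (t : ℕ → ℝ), 3 ≤ m → IsData n 0 m τ η t →
      ∃ ε : ℝ, 0 < ε ∧ ∀ s : ℝ, τ < s → s < τ + ε →
        IsData n 0 m τ η (Function.update t 0 s) ∧
          ¬ MLEExists n 0 m τ η (Function.update t 0 s) := by
  have key : ∀ (n m : ℕ) (τ η : ℝ) (t : ℕ → ℝ), 3 ≤ m → IsData n 0 m τ η t →
      ∃ ε : ℝ, 0 < ε ∧ ∀ s : ℝ, τ < s → s < τ + ε →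
        IsData n 0 m τ η (Function.update t 0 s) ∧
          ¬ MLEExists n 0 m τ η (Function.update t 0 s) := by
    intro n m τ η t hm hd
    set B : ℝ := 2 * (m * Real.log m - m) + 1 - m * Real.log (t (m - 1) - t 1) with hB
    set c : ℝ := B + m * Real.log 2 + ((m : ℝ) - 1) * Real.log (2 * (η - τ)) / 2 +
      n * (2 * (η - τ)) ^ (1 / 2 : ℝ) with hc
    have h1 := hd.second 1 (by omega) (by omega)
    refine ⟨min (t 1 - τ) (Real.exp (-(2 * c)) / 2), lt_min (by linarith) (by positivity), ?_⟩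
    intro s hs1 hs2
    have hs3 : s < t 1 := by
      have := min_le_left (t 1 - τ) (Real.exp (-(2 * c)) / 2)
      linarith
    have hs4 : 2 * (s - τ) < Real.exp (-(2 * c)) := by
      have := min_le_right (t 1 - τ) (Real.exp (-(2 * c)) / 2)
      linarith
    have hd' : IsData n 0 m τ η (Function.update t 0 s) := by
      refine ⟨hd.tau_pos, hd.tau_lt, hd.le_n, ?_, fun i hi => absurd hi (by omega), ?_⟩
      · intro i j hij hj
        have hj0 : j ≠ 0 := by omega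
        rw [Function.update_of_ne hj0]
        by_cases hi0 : i = 0
        · rw [hi0, Function.update_self]
          rcases Nat.eq_or_lt_of_le (show 1 ≤ j by omega) with h | h
          · rw [← h]; exact hs3
          · exact hs3.trans (hd.incr 1 j h hj)
        · rw [Function.update_of_ne hi0]
          exact hd.incr i j hij hj
      · intro i _ hi
        by_cases hi0 : i = 0
        · rw [hi0, Function.update_self]
          exact ⟨hs1, hs3.le.trans h1.2⟩
        · rw [Function.update_of_ne hi0]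
          exact hd.second i (by omega) hi
    refine ⟨hd', ?_⟩
    rintro ⟨α, θ, β, hα, hθ, hβ, hmax⟩
    rcases lt_or_ge α 1 with hα1 | hα1
    · have h2 := step hd' (by omega) hα hα1 hθ hβ
      have h3 := hmax α (2 * θ) (2 * β) hα (by linarith) (by linarith)
      linarith
    · have h2 := upper hd' hm hα1 hθ hβ
      rw [Function.update_of_ne (show m - 1 ≠ 0 by omega),
        Function.update_of_ne (show (1 : ℕ) ≠ 0 by norm_num), ← hB] at h2
      have h3 := lower hd' (by omega)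
      rw [Function.update_self] at h3
      have hspos : 0 < s - τ := by linarith
      have h4 := hmax (1 / 2) (τ / (s - τ)) (τ / (s - τ)) (by norm_num)
        (div_pos hd.tau_pos hspos) (div_pos hd.tau_pos hspos)
      have h5 : Real.log (2 * (s - τ)) < -(2 * c) := by
        rw [← Real.log_exp (-(2 * c))]
        exact Real.log_lt_log (by linarith) hs4
      rw [hc] at h5
      linarith
  refine ⟨?_, key⟩
  intro h
  have hd : IsData 3 0 3 1 4 (fun i => 2 + (i : ℝ)) := by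
    refine ⟨one_pos, by norm_num, le_refl _, ?_, fun i hi => absurd hi (by omega), ?_⟩
    · intro i j hij _
      have : (i : ℝ) < j := by exact_mod_cast hij
      linarith
    · intro i _ hi
      have h1 : (0 : ℝ) ≤ i := Nat.cast_nonneg i
      have h2 : (i : ℝ) ≤ 2 := by
        have : i ≤ 2 := by omega
        exact_mod_cast this
      exact ⟨by linarith, by linarith⟩
  obtain ⟨ε, hε, hall⟩ := key 3 3 1 4 _ le_rfl hd
  obtain ⟨hd2, hno⟩ := hall (1 + ε / 2) (by linarith) (by linarith)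
  exact hno (h 3 0 3 1 4 _ hd2 (by norm_num) (by norm_num))

end

end Pool.Agent.Results.MP_1bbe3d_pr.NoMLE
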